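import Pool.Agent.H776.Cap2
import Pool.Agent.H776.Tilt

/-!
# The KLS conjecture for convex bodies is equivalent to its case of caps of bodies with arbitrarily
many symmetries

For convex bodies with many symmetries (for instance 1-symmetric ones: invariant under permutations and
changes of signs of the coordinates, or under reflection groups) the inequality of Kannan, Lovasz and
Simonovits is known. We show that the intersections `B ∩ {⟪a, x⟫ ≥ b}` of such bodies with one halfspace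
are as hard as all convex bodies: for every `n` and every finite group `Γ` of linear isometries of
`ℝ^(n+1)`, if Q1 (in the form of the frozen statement) holds with the constant `C` for the caps
`B ∩ {⟪a, x⟫ ≥ b}` of all `Γ`-invariant convex bodies `B ⊂ ℝ^(n+1)`, then it holds with the constant `c C`,
`c` absolute, for all convex bodies in `ℝⁿ`. Hence for every sequence of finite groups `Γ_n` of linear
isometries of `ℝⁿ` the conjecture is equivalent to its case of caps of `Γ_n`-invariant bodies.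

Method. Let `L ⊂ ℝⁿ` be a convex body and `a ∈ ℝ^(n+1)` a unit vector which is not fixed by any
`σ ≠ 1` in `Γ`. In coordinates `(x, t)`, `t = ⟪a, ·⟫`, let `C = {(x, t) : t ≤ R, dist (x, L) ≤ M (R - t)}`
and `B = {p : ‖p‖ ≤ R', σ p ∈ C for all σ ∈ Γ}`. The conditions `σ p ∈ C`, `σ ≠ 1`, are satisfied for all `p`
near the top `t = R`, if `R, R', M` are large, so that the cap `B ∩ {t ≥ R - h}` is
`{(x, t) : R - h ≤ t ≤ R, dist (x, L) ≤ M (R - t)}` for small `h`. For `h → 0` its uniform measures, with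
their covariances, converge to the uniform measure on `L × {R}`. The halfspace form of the inequality is
turned into a Poincare inequality, which passes to the limit, and back.
-/

set_option autoImplicit false

namespace Pool.Agent.Results.MP_8d00da_gt.CapsOfInvariantBodies

open MeasureTheory Set
open scoped ENNReal InnerProductSpace

/-- Euclidean space of dimension `n` -/
abbrev Euc (n : ℕ) : Type := EuclideanSpace ℝ (Fin n)

/-- linear isometries of `ℝⁿ` -/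
abbrev Iso (n : ℕ) : Type := Euc n ≃ₗᵢ[ℝ] Euc n

/-- `Γ` is a finite group of linear isometries of `ℝⁿ` -/
structure IsFiniteGroup {n : ℕ} (Γ : Set (Iso n)) : Prop where
  finite : Γ.Finite
  one : LinearIsometryEquiv.refl ℝ (Euc n) ∈ Γ
  mul : ∀ σ ∈ Γ, ∀ τ ∈ Γ, σ.trans τ ∈ Γ
  inv : ∀ σ ∈ Γ, σ.symm ∈ Γ

/-- convex body: compact convex set with nonempty interior -/
structure IsBody {n : ℕ} (K : Set (Euc n)) : Prop where
  convex : Convex ℝ K
  compact : IsCompact K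
  int : (interior K).Nonempty

/-- **Q1 for the body `K` with the constant `c`** (as in the frozen statement): for the uniform
measure `μ` on `K` and `t ∈ [0, ∞]`, if `t min(μ H, 1 - μ H) ≤ μ⁺(H)` for all halfspaces `H` then
`c t min(μ A, 1 - μ A) ≤ μ⁺(A)` for all measurable sets `A`. -/
def KLS {n : ℕ} (c : ℝ) (K : Set (Euc n)) : Prop :=
  ∀ μ : Measure (Euc n), μ = (volume K)⁻¹ • volume.restrict K → ∀ t : ℝ≥0∞,
    (∀ (u : Euc n) (b : ℝ), u ≠ 0 →
      t * min (μ {x : Euc n | inner ℝ u x ≤ b}) (1 - μ {x : Euc n | inner ℝ u x ≤ b}) ≤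
        Filter.liminf (fun ε : ℝ => (μ (Metric.thickening ε {x : Euc n | inner ℝ u x ≤ b})
          - μ {x : Euc n | inner ℝ u x ≤ b}) / ENNReal.ofReal ε) (nhdsWithin 0 (Set.Ioi 0))) →
    ∀ A : Set (Euc n), MeasurableSet A →
      ENNReal.ofReal c * t * min (μ A) (1 - μ A) ≤
        Filter.liminf (fun ε : ℝ => (μ (Metric.thickening ε A) - μ A) / ENNReal.ofReal ε)
          (nhdsWithin 0 (Set.Ioi 0))

/-- `K` is a cap of a `Γ`-invariant convex body `B`: `K = B ∩ {x : b ≤ ⟪a, x⟫}`, with interior points -/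
def IsCap {n : ℕ} (Γ : Set (Iso n)) (K : Set (Euc n)) : Prop :=
  ∃ (B : Set (Euc n)) (a : Euc n) (b : ℝ), IsBody B ∧ (∀ σ ∈ Γ, σ '' B = B) ∧
    K = B ∩ {x | b ≤ ⟪a, x⟫_ℝ} ∧ (interior K).Nonempty

theorem kls_iff {n : ℕ} {c : ℝ} {K : Set (Euc n)} : KLS c K ↔ Pool.Agent.H776.HF K c :=
  ⟨fun h t ht A hA => h _ rfl t ht A hA, fun h μ hμ t ht A hA => by
    subst hμ
    exact h t ht A hA⟩

theorem body_of_cap {n : ℕ} {Γ : Set (Iso n)} {K : Set (Euc n)} (h : IsCap Γ K) : IsBody K := by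
  obtain ⟨B, a, b, hB, -, hK, hi⟩ := h
  have hc : IsClosed {x : Euc n | b ≤ ⟪a, x⟫_ℝ} := isClosed_le continuous_const (by fun_prop)
  have hv : Convex ℝ {x : Euc n | b ≤ ⟪a, x⟫_ℝ} := by
    intro x hx y hy s t hs ht hst
    simp only [mem_ofPred_eq] at hx hy ⊢
    rw [inner_add_right, real_inner_smul_right, real_inner_smul_right]
    calc b = s * b + t * b := by rw [← add_mul, hst, one_mul]
      _ ≤ _ := add_le_add (mul_le_mul_of_nonneg_left hx hs) (mul_le_mul_of_nonneg_left hy ht)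
  refine ⟨?_, ?_, hi⟩
  · rw [hK]
    exact hB.convex.inter hv
  · rw [hK]
    exact hB.compact.inter_right hc

/-- the constant of the conversion -/
theorem main : ∃ c : ℝ, 0 < c ∧ ∀ (n : ℕ) (Γ : Set (Iso (n + 1))), IsFiniteGroup Γ → ∀ C : ℝ, 0 < C →
    (∀ K : Set (Euc (n + 1)), IsCap Γ K → KLS C K) →
      ∀ K : Set (Euc n), IsBody K → KLS (c * C) K := by
  classical
  obtain ⟨c₀, hc₀, H0⟩ := Pool.Agent.H776.exists_kp_of_hf
  refine ⟨c₀ / 80, by positivity, fun n Γ hΓ C hC H L hL => ?_⟩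
  have hD : 0 < 4 / (C * c₀) ^ 2 := by positivity
  have hLB : Pool.Agent.H776.Body L := ⟨hL.compact, hL.convex, hL.int⟩
  have hne : L.Nonempty := hL.int.mono interior_subset
  -- a generic unit vector
  let Γ' : Subgroup (Iso (n + 1)) :=
    { carrier := Γ
      one_mem' := hΓ.one
      mul_mem' := fun {σ τ} h1 h2 => hΓ.mul τ h2 σ h1
      inv_mem' := fun {σ} h1 => hΓ.inv σ h1 }
  have hfin : Finite Γ' := hΓ.finite
  obtain ⟨a₀, ha₀, hgen⟩ := Pool.Agent.H776.exists_generic Γ'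
    (U := {x : Euc (n + 1) | x ≠ 0}) isOpen_ne ⟨EuclideanSpace.single 0 1, by simp⟩
  have hn0 : ‖a₀‖ ≠ 0 := norm_ne_zero_iff.2 ha₀
  obtain ⟨a, ha⟩ : ∃ a : Euc (n + 1), a = ‖a₀‖⁻¹ • a₀ := ⟨_, rfl⟩
  have han : ‖a‖ = 1 := by
    rw [ha, norm_smul, norm_inv, norm_norm, inv_mul_cancel₀ hn0]
  have hga : ∀ σ ∈ Γ, σ ≠ LinearIsometryEquiv.refl ℝ _ → ⟪a, σ a⟫_ℝ < 1 := by
    intro σ hσ hσ1
    rw [inner_lt_one_iff_real_of_norm_eq_one han (by rw [σ.norm_map]; exact han)]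
    intro h1
    refine hgen σ hσ hσ1 ?_
    have h2 : a₀ = ‖a₀‖ • a := by rw [ha, smul_inv_smul₀ hn0]
    rw [h2, map_smul, ← h1]
  obtain ⟨δ, hδ0, hδ1, hδ⟩ : ∃ δ : ℝ, 0 < δ ∧ δ ≤ 1 ∧
      ∀ σ ∈ Γ, σ ≠ LinearIsometryEquiv.refl ℝ _ → ⟪a, σ a⟫_ℝ ≤ 1 - δ := by
    have h1 : ∀ᶠ δ : ℝ in nhdsWithin 0 (Ioi 0),
        ∀ σ ∈ Γ, σ ≠ LinearIsometryEquiv.refl ℝ _ → ⟪a, σ a⟫_ℝ ≤ 1 - δ := by
      rw [Filter.eventually_all_finite hΓ.finite]
      intro σ hσ
      by_cases hσ1 : σ = LinearIsometryEquiv.refl ℝ _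
      · exact Filter.Eventually.of_forall fun δ h => absurd hσ1 h
      · have h2 := hga σ hσ hσ1
        have h3 : Filter.Tendsto (fun δ : ℝ => 1 - δ) (nhdsWithin 0 (Ioi 0)) (nhds (1 - 0)) :=
          (Continuous.tendsto (by fun_prop) 0).mono_left nhdsWithin_le_nhds
        rw [sub_zero] at h3
        filter_upwards [h3.eventually (lt_mem_nhds h2)] with δ h4 _
        exact h4.le
    have h2 : ∀ᶠ δ : ℝ in nhdsWithin 0 (Ioi 0), δ ≤ 1 := by
      filter_upwards [nhdsWithin_le_nhds (gt_mem_nhds (zero_lt_one' ℝ))] with δ h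
      exact le_of_lt h
    obtain ⟨δ, ⟨h3, h4⟩, h5⟩ := ((h1.and h2).and self_mem_nhdsWithin).exists
    exact ⟨δ, h5, h4, h3⟩
  -- coordinates
  obtain ⟨bs, hbs⟩ : ∃ b : OrthonormalBasis (Fin n ⊕ Unit) ℝ (Euc (n + 1)), b (Sum.inr ()) = a := by
    have hcard : Module.finrank ℝ (Euc (n + 1)) = Fintype.card (Fin n ⊕ Unit) := by simp
    have hon : Orthonormal ℝ (({Sum.inr ()} : Set (Fin n ⊕ Unit)).domRestrict
        fun _ => a) := by
      refine ⟨fun i => han, fun i j hij => ?_⟩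
      exact absurd (Subsingleton.elim i j) hij
    obtain ⟨b, hb⟩ := hon.exists_orthonormalBasis_extension_of_card_eq hcard
    exact ⟨b, hb _ rfl⟩
  obtain ⟨Φ, hΦ⟩ : ∃ Φ : Euc (n + 1) ≃ₗᵢ[ℝ] Pool.Agent.H776.Eu (Fin n ⊕ Unit),
      Φ a = Pool.Agent.H776.ee (Fin n) := by
    refine ⟨bs.repr, ?_⟩
    rw [← hbs, OrthonormalBasis.repr_self]
    unfold Pool.Agent.H776.ee
    congr
    exact Subsingleton.elim _ _
  have hht : ∀ x : Euc (n + 1), Pool.Agent.H776.ht (Φ x) = ⟪a, x⟫_ℝ := fun x => by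
    rw [Pool.Agent.H776.ht_eq, ← hΦ, Φ.inner_map_map]
  -- the conjugate group
  obtain ⟨cj, hcj⟩ : ∃ cj : Iso (n + 1) → (Pool.Agent.H776.Eu (Fin n ⊕ Unit) ≃ₗᵢ[ℝ]
      Pool.Agent.H776.Eu (Fin n ⊕ Unit)), cj = fun σ => Φ.symm.trans (σ.trans Φ) := ⟨_, rfl⟩
  have hcj' : ∀ σ p, cj σ p = Φ (σ (Φ.symm p)) := fun σ p => by rw [hcj]; rfl
  obtain ⟨ρ₀, hρ₀⟩ := hL.compact.isBounded.exists_norm_le
  obtain ⟨ρ, hρ, hρ1⟩ : ∃ ρ : ℝ, 0 ≤ ρ ∧ ∀ y ∈ L, ‖y‖ ≤ ρ :=
    ⟨max ρ₀ 0, le_max_right _ _, fun y hy => (hρ₀ y hy).trans (le_max_left _ _)⟩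
  set R : ℝ := (ρ + 2) / δ with hR
  set R' : ℝ := R + ρ + 1 with hR'
  set M : ℝ := R' + ρ with hM
  have hCP : Pool.Agent.H776.CP (cj '' Γ) L ρ δ R R' M := by
    refine ⟨hρ, hρ1, hδ0, ?_, ?_, hδ1, le_rfl, le_rfl⟩
    · rintro _ ⟨σ, hσ, rfl⟩ hne1
      rw [← hΦ, hcj', Φ.symm_apply_apply, Φ.inner_map_map]
      refine hδ σ hσ fun h => hne1 ?_
      ext1 p
      rw [hcj', h]
      simp
    · rw [hR, div_mul_cancel₀ _ hδ0.ne']
  have hone : LinearIsometryEquiv.refl ℝ _ ∈ cj '' Γ := by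
    refine ⟨_, hΓ.one, ?_⟩
    ext1 p
    rw [hcj']
    simp
  have hmul : ∀ σ ∈ cj '' Γ, ∀ τ ∈ cj '' Γ, σ.trans τ ∈ cj '' Γ := by
    rintro _ ⟨σ, hσ, rfl⟩ _ ⟨τ, hτ, rfl⟩
    refine ⟨_, hΓ.mul σ hσ τ hτ, ?_⟩
    ext1 p
    rw [hcj', LinearIsometryEquiv.trans_apply, LinearIsometryEquiv.trans_apply, hcj', hcj',
      Φ.symm_apply_apply]
  have hinv : ∀ σ ∈ cj '' Γ, σ.symm ∈ cj '' Γ := by
    rintro _ ⟨σ, hσ, rfl⟩
    refine ⟨_, hΓ.inv σ hσ, ?_⟩
    ext1 p
    rw [hcj', LinearIsometryEquiv.eq_symm_apply, hcj', Φ.symm_apply_apply, σ.apply_symm_apply,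
      Φ.apply_symm_apply]
  -- the caps
  have hcap : ∀ h : ℝ, 0 < h → M * h ≤ 1 → Pool.Agent.H776.KP (Pool.Agent.H776.nm
      ((Pool.Agent.H776.Cap (cj '' Γ) L R R' M h).indicator fun _ => (1 : ℝ)))
        (4 / (C * c₀) ^ 2) := by
    intro h hh hh1
    have hb := Pool.Agent.H776.cap_body hCP hL.compact hL.convex hne hone hh hh1
    obtain ⟨B, hBdef⟩ : ∃ B : Set (Euc (n + 1)),
        B = Φ ⁻¹' Pool.Agent.H776.KG (cj '' Γ) L R R' M := ⟨_, rfl⟩
    obtain ⟨K, hKdef⟩ : ∃ K : Set (Euc (n + 1)),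
        K = Φ ⁻¹' Pool.Agent.H776.Cap (cj '' Γ) L R R' M h := ⟨_, rfl⟩
    have hBcomp : IsCompact B := by
      rw [hBdef]
      exact Φ.toHomeomorph.isClosedEmbedding.isCompact_preimage
        (Pool.Agent.H776.KG_compact hL.compact hne)
    have hBconv : Convex ℝ B := by
      rw [hBdef]
      exact (Pool.Agent.H776.KG_convex hL.convex).linear_preimage Φ.toLinearEquiv.toLinearMap
    have hBint : (interior B).Nonempty := by
      refine ⟨0, ?_⟩
      rw [hBdef]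
      have h1 := Φ.toHomeomorph.preimage_interior (Pool.Agent.H776.KG (cj '' Γ) L R R' M)
      have h2 : (0 : Euc (n + 1)) ∈ Φ.toHomeomorph ⁻¹' interior
          (Pool.Agent.H776.KG (cj '' Γ) L R R' M) := by
        rw [mem_preimage]
        have h3 : Φ.toHomeomorph 0 = 0 := map_zero Φ
        rw [h3]
        exact Pool.Agent.H776.KG_interior hCP hne
      rw [h1] at h2
      exact h2
    have hKint : (interior K).Nonempty := by
      obtain ⟨p, hp⟩ := hb.int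
      refine ⟨Φ.symm p, ?_⟩
      rw [hKdef]
      have h1 := Φ.toHomeomorph.preimage_interior (Pool.Agent.H776.Cap (cj '' Γ) L R R' M h)
      have h2 : Φ.symm p ∈ Φ.toHomeomorph ⁻¹' interior
          (Pool.Agent.H776.Cap (cj '' Γ) L R R' M h) := by
        rw [mem_preimage]
        have h3 : Φ.toHomeomorph (Φ.symm p) = p := Φ.apply_symm_apply p
        rw [h3]
        exact hp
      rw [h1] at h2
      exact h2
    have hKB : K = B ∩ {x | R - h ≤ ⟪a, x⟫_ℝ} := by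
      rw [hKdef, hBdef]
      ext x
      unfold Pool.Agent.H776.Cap
      simp only [mem_preimage, mem_inter_iff, mem_ofPred_eq, hht]
    have hBinv : ∀ σ ∈ Γ, σ '' B = B := by
      have key : ∀ σ ∈ Γ, ∀ x ∈ B, σ x ∈ B := by
        intro σ hσ x hx
        rw [hBdef] at hx ⊢
        have h1 := Pool.Agent.H776.KG_inv (L := L) (R := R) (R' := R') (M := M) hmul hinv
          (mem_image_of_mem cj hσ)
        have h2 : cj σ (Φ x) ∈ Pool.Agent.H776.KG (cj '' Γ) L R R' M := by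
          rw [← h1]
          exact mem_image_of_mem _ hx
        rw [hcj', Φ.symm_apply_apply] at h2
        exact h2
      intro σ hσ
      refine Subset.antisymm ?_ fun x hx => ⟨σ.symm x, key _ (hΓ.inv σ hσ) x hx, σ.apply_symm_apply x⟩
      rintro _ ⟨x, hx, rfl⟩
      exact key σ hσ x hx
    have hIC : IsCap Γ K := ⟨B, a, R - h, ⟨hBconv, hBcomp, hBint⟩, hBinv, hKB, hKint⟩
    have hKb := body_of_cap hIC
    have hKB' : Pool.Agent.H776.Body K := ⟨hKb.compact, hKb.convex, hKb.int⟩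
    have h1 := H0 _ K hKB' C hC (kls_iff.1 (H K hIC))
    have hpr := hKB'.wt.prob
    have h2 := h1.iso hKB'.wt.int_sq Φ hD.le
    have e1 : K.indicator (fun _ => (1 : ℝ)) =
        fun y => (Pool.Agent.H776.Cap (cj '' Γ) L R R' M h).indicator (fun _ => (1 : ℝ)) (Φ y) := by
      funext y
      have hiff : y ∈ K ↔ Φ y ∈ Pool.Agent.H776.Cap (cj '' Γ) L R R' M h := by
        rw [hKdef]
        rfl
      by_cases hy : y ∈ K
      · rw [indicator_of_mem hy, indicator_of_mem (hiff.1 hy)]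
      · rw [indicator_of_notMem hy, indicator_of_notMem fun h => hy (hiff.2 h)]
    rw [e1, Pool.Agent.H776.nm_iso] at h2
    exact h2
  have hK' := Pool.Agent.H776.kp_cap hD.le hCP hLB hone hcap
  have h5 := Pool.Agent.H776.hf_of_kp hLB hD hK'
  have e : 1 / (40 * Real.sqrt (4 / (C * c₀) ^ 2)) = c₀ / 80 * C := by
    rw [Real.sqrt_div (by norm_num), Real.sqrt_sq (by positivity),
      show (4 : ℝ) = 2 ^ 2 by norm_num, Real.sqrt_sq (by norm_num)]
    field_simp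
    norm_num
  rw [e] at h5
  exact kls_iff.2 h5

/-- **The KLS conjecture for convex bodies is equivalent to its case of caps of `Γ`-invariant bodies.**
(1) There is an absolute constant `c > 0` such that for all `n`, all finite groups `Γ` of linear
isometries of `ℝ^(n+1)` and all `C > 0`: if Q1 holds with the constant `C` for all caps
`B ∩ {x : b ≤ ⟪a, x⟫}` of `Γ`-invariant convex bodies `B` in `ℝ^(n+1)`, then it holds with the constant `c C`
for all convex bodies in `ℝⁿ`. (2) So for every sequence of finite groups `Γ_n` of linear isometries of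
`ℝⁿ` the conjecture is equivalent to the conjecture for the caps of `Γ_n`-invariant convex bodies. -/
theorem result :
    (∃ c : ℝ, 0 < c ∧ ∀ (n : ℕ) (Γ : Set (Iso (n + 1))), IsFiniteGroup Γ → ∀ C : ℝ, 0 < C →
      (∀ K : Set (Euc (n + 1)), IsCap Γ K → KLS C K) →
        ∀ K : Set (Euc n), IsBody K → KLS (c * C) K) ∧
    ∀ Γ : (n : ℕ) → Set (Iso n), (∀ n, IsFiniteGroup (Γ n)) →
      ((∃ C : ℝ, 0 < C ∧ ∀ (n : ℕ) (K : Set (Euc n)), IsBody K → KLS C K) ↔
        ∃ C : ℝ, 0 < C ∧ ∀ (n : ℕ) (K : Set (Euc n)), IsCap (Γ n) K → KLS C K) := by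
  refine ⟨main, fun Γ hΓ => ⟨fun ⟨C, hC, H⟩ => ⟨C, hC, fun n K hK => H n K (body_of_cap hK)⟩,
    fun ⟨C, hC, H⟩ => ?_⟩⟩
  obtain ⟨c, hc, h⟩ := main
  exact ⟨c * C, mul_pos hc hC, fun n K hK => h n (Γ (n + 1)) (hΓ _) C hC (H (n + 1)) K hK⟩

end Pool.Agent.Results.MP_8d00da_gt.CapsOfInvariantBodies
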