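import Pool.Agent.H776.Cent2
import Pool.Agent.H776.AllLC
import Pool.Agent.H776.IsoT

/-!
# KLS is equivalent to KLS for centred Gaussian vectors conditioned to have nonnegative coordinates

The inequality of Kannan, Lovasz and Simonovits for all log-concave probability measures (the frozen
statement) follows, with an absolute loss, from its special case of the measures with densities
`c exp (-xᵀ Q x / 2)` on the positive orthant `[0,∞)ᴺ`, `N` arbitrary, `Q` positive definite: the laws of
centred multivariate normal vectors conditioned to have nonnegative coordinates.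

Method (all steps are limits of images under contractions `T`, where the covariance in the directions
which are lost under `T` tends to zero, so that the Poincare inequality with `C_P ≤ D ‖Cov‖` passes to the
limit, module `H776.Lift`).
1. Log-concave densities are limits of `exp (-max_j (⟪a_j, x⟫ + b_j))`, these are marginals of exponential
  densities `exp (-s)` on polyhedra.
2. Exponential densities on polyhedra `{v | ⟪α_j, v⟫ ≤ β_j}` are limits of (images of) Gaussian measures
  on orthants, with arbitrary centres: the slacks `β_j - ⟪α_j, v⟫`, multiplied by a small number `a`, are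
  additional coordinates `u_j ≥ 0` with the strong coupling `exp (-|u_j/a - β_j + ⟪α_j, v⟫|² / (2 a²))`.
3. Gaussian measures with the density `exp (-‖A (y - b)‖² / 2)` on the orthant are limits of centred
  Gaussian measures on orthants: the number `1` in `y - 1 b` is replaced by a multiple of the sum of `m`
  additional coordinates, which are independent half-normal variables of size `1 / m`; their sum
  concentrates (law of large numbers), while their covariances have the size `1 / m²`.
-/

set_option autoImplicit false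

namespace Pool.Agent.Results.MP_6d896a_gt.CentredGaussiansOnOrthants

open MeasureTheory Set
open scoped ENNReal InnerProductSpace

/-- Euclidean space of dimension `n` -/
abbrev Euc (n : ℕ) : Type := EuclideanSpace ℝ (Fin n)

/-- log-concave probability measures: probability measures with a density `g ≥ 0` with
`g x ^ (1 - t) * g y ^ t ≤ g ((1 - t) x + t y)` -/
def LogConcave {n : ℕ} (μ : Measure (Euc n)) : Prop :=
  IsProbabilityMeasure μ ∧ ∃ g : Euc n → ℝ, (∀ x, 0 ≤ g x) ∧ Measurable g ∧
    (∀ x y, ∀ t : ℝ, 0 < t → t < 1 → g x ^ (1 - t) * g y ^ t ≤ g ((1 - t) • x + t • y)) ∧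
    μ = volume.withDensity fun x => ENNReal.ofReal (g x)

/-- `μ` is a centred nondegenerate Gaussian measure conditioned to the positive orthant: it has the
density `c exp (-xᵀ Q x / 2)` on `{x | ∀ i, 0 ≤ x i}`, `Q` a positive definite matrix, `c` the normalizing
constant -/
def PositiveNormal {n : ℕ} (μ : Measure (Euc n)) : Prop :=
  IsProbabilityMeasure μ ∧ ∃ (Q : Matrix (Fin n) (Fin n) ℝ) (c : ℝ), Q.PosDef ∧
    μ = (volume.restrict {x : Euc n | ∀ i, 0 ≤ x i}).withDensity fun x =>
      ENNReal.ofReal (c * Real.exp (-(1 / 2) * ∑ i, ∑ j, Q i j * x i * x j))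

/-- the inequality of Kannan, Lovasz and Simonovits with the constant `C`: if all variances in
directions of length one are at most `s` then `(C / √s) min(μ S, μ Sᶜ) ≤ μ⁺(S)` for all measurable `S` -/
def KLS {n : ℕ} (C : ℝ) (μ : Measure (Euc n)) : Prop :=
  ∀ s : ℝ, 0 < s →
    (∀ θ : Euc n, ‖θ‖ = 1 → ProbabilityTheory.variance (fun x => inner ℝ x θ) μ ≤ s) →
    ∀ S : Set (Euc n), MeasurableSet S →
      ENNReal.ofReal (C / Real.sqrt s) * min (μ S) (μ Sᶜ) ≤
        Filter.liminf (fun ε : ℝ => (μ (Metric.thickening ε S) - μ S) / ENNReal.ofReal ε)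
          (nhdsWithin 0 (Set.Ioi 0))

theorem den_of {n : ℕ} {g : Euc n → ℝ} (h1 : ∀ x, 0 ≤ g x) (h2 : Measurable g)
    (h3 : ∀ x y, ∀ t : ℝ, 0 < t → t < 1 → g x ^ (1 - t) * g y ^ t ≤ g ((1 - t) • x + t • y))
    (hp : IsProbabilityMeasure (volume.withDensity fun x => ENNReal.ofReal (g x))) :
    Q289.LD.Den g := by
  refine ⟨h1, h2, h3, ?_⟩
  have h4 : (volume.withDensity fun x => ENNReal.ofReal (g x)) univ = 1 := measure_univ
  rw [withDensity_apply _ MeasurableSet.univ, Measure.restrict_univ] at h4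
  rw [integral_eq_lintegral_of_nonneg_ae (Filter.Eventually.of_forall h1)
    h2.aestronglyMeasurable, h4, ENNReal.toReal_one]

theorem nm_of_mass {n : ℕ} {g : Euc n → ℝ} (h : ∫ x, g x = 1) :
    Pool.Agent.H776.nm g = volume.withDensity fun x => ENNReal.ofReal (g x) := by
  unfold Pool.Agent.H776.nm
  simp only [h, div_one]

/-- from the isoperimetric inequality to the Poincare inequality -/
theorem kp_of_kls {n : ℕ} {μ : Measure (Euc n)} [IsProbabilityMeasure μ] {C : ℝ} (hC : 0 < C)
    (h : KLS C μ) : Pool.Agent.H776.KP μ (4 / C ^ 2) := by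
  intro s hs hcov
  have h1 : Pool.Agent.H776.Iso μ (C / Real.sqrt s) := fun S hS => h s hs hcov S hS
  have h2 := Pool.Agent.H776.poi_of_iso (div_pos hC (Real.sqrt_pos.2 hs)) h1
  have e : 4 / (C / Real.sqrt s) ^ 2 = 4 / C ^ 2 * s := by
    rw [div_pow, Real.sq_sqrt hs.le]
    field_simp
  rwa [e] at h2

theorem kls_of_kp {n : ℕ} {g : Euc n → ℝ} (hg : Q289.LD.Den g) {C : ℝ} (hC : 0 < C)
    (h : Pool.Agent.H776.KP (Pool.Agent.H776.nm g) (4 / C ^ 2)) :
    KLS (1 / 28 * C) (volume.withDensity fun x => ENNReal.ofReal (g x)) := by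
  intro s hs hcov S hS
  rw [nm_of_mass hg.mass] at h
  have h1 := h s hs hcov
  have h2 := Pool.Agent.H776.iso_of_poi hg rfl (by positivity) h1 S hS
  have e : 1 / 14 / Real.sqrt (4 / C ^ 2 * s) = 1 / 28 * C / Real.sqrt s := by
    rw [Real.sqrt_mul (by positivity), Real.sqrt_div (by norm_num), Real.sqrt_sq hC.le,
      show (4 : ℝ) = 2 ^ 2 by norm_num, Real.sqrt_sq (by norm_num)]
    have := Real.sqrt_pos.2 hs
    field_simp
    norm_num
  rw [e] at h2
  exact h2

/-- the matrix of the quadratic form `‖A x‖²` -/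
theorem exists_matrix {n : ℕ} {F : Type} [Fintype F] (A : Euc n →ₗ[ℝ] EuclideanSpace ℝ F)
    (hA : Function.Injective A) : ∃ Q : Matrix (Fin n) (Fin n) ℝ, Q.PosDef ∧
      ∀ x : Euc n, ‖A x‖ ^ 2 = ∑ i, ∑ j, Q i j * x i * x j := by
  have hx : ∀ x : Euc n, ‖A x‖ ^ 2 = ∑ i, ∑ j,
      ⟪A (EuclideanSpace.single i 1), A (EuclideanSpace.single j 1)⟫_ℝ * x i * x j := by
    intro x
    have h1 : x = ∑ i, x i • EuclideanSpace.single i (1 : ℝ) := by
      have := (EuclideanSpace.basisFun (Fin n) ℝ).sum_repr x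
      simpa using this.symm
    conv_lhs => rw [h1]
    rw [map_sum, ← real_inner_self_eq_norm_sq, sum_inner]
    refine Finset.sum_congr rfl fun i _ => ?_
    rw [inner_sum]
    refine Finset.sum_congr rfl fun j _ => ?_
    rw [map_smul, map_smul, real_inner_smul_left, real_inner_smul_right]
    ring
  refine ⟨Matrix.of fun i j => ⟪A (EuclideanSpace.single i 1), A (EuclideanSpace.single j 1)⟫_ℝ,
    ?_, hx⟩
  refine Matrix.PosDef.of_dotProduct_mulVec_pos ?_ fun x hx0 => ?_
  · ext i j
    simp only [Matrix.conjTranspose_apply, Matrix.of_apply, star_trivial]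
    exact real_inner_comm _ _
  · have h1 : star x ⬝ᵥ (Matrix.of fun i j =>
        ⟪A (EuclideanSpace.single i 1), A (EuclideanSpace.single j 1)⟫_ℝ).mulVec x =
        ‖A (WithLp.toLp 2 x)‖ ^ 2 := by
      rw [hx]
      simp only [dotProduct, Matrix.mulVec, star_trivial, Matrix.of_apply, Finset.mul_sum]
      refine Finset.sum_congr rfl fun i _ => Finset.sum_congr rfl fun j _ => ?_
      ring
    rw [h1]
    have h2 : A (WithLp.toLp 2 x) ≠ 0 := by
      intro h3
      have h4 : (WithLp.toLp 2 x : Euc n) = 0 := hA (by rw [h3, map_zero])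
      exact hx0 (by
        have := congrArg WithLp.ofLp h4
        simpa using this)
    have := norm_pos_iff.2 h2
    positivity

theorem positiveNormal_of_cg {n : ℕ} {g : Euc n → ℝ} (hg : Pool.Agent.H776.CG g)
    (hw : Pool.Agent.H776.Wt g) : PositiveNormal (Pool.Agent.H776.nm g) := by
  classical
  obtain ⟨F, _, A, c, hc, hA, hge⟩ := hg
  obtain ⟨Q, hQ, hQA⟩ := exists_matrix A hA
  refine ⟨hw.prob, Q, c / ∫ y, g y, hQ, ?_⟩
  unfold Pool.Agent.H776.nm
  rw [← withDensity_indicator Pool.Agent.H776.orth_meas]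
  congr 1
  funext x
  rw [hge]
  by_cases hx : ∀ i, 0 ≤ x i
  · rw [if_pos hx, indicator_of_mem (show x ∈ {x : Euc n | ∀ i, 0 ≤ x i} from hx), ← hQA]
    congr 1
    rw [show -(1 / 2) * ‖A x‖ ^ 2 = -(‖A x‖ ^ 2 / 2) by ring]
    ring
  · rw [if_neg hx, indicator_of_notMem (show x ∉ {x : Euc n | ∀ i, 0 ≤ x i} from hx), zero_div,
      ENNReal.ofReal_zero]

/-- **centred Gaussian measures on orthants are as hard as all log-concave measures** -/
theorem main {C : ℝ} (hC : 0 < C)
    (H : ∀ (n : ℕ) (μ : Measure (Euc n)), PositiveNormal μ → KLS C μ) {n : ℕ} {μ : Measure (Euc n)}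
    (hμ : LogConcave μ) : KLS (1 / 28 * C) μ := by
  obtain ⟨hP, g, h1, h2, h3, h4⟩ := hμ
  rw [h4] at hP
  have hg := den_of h1 h2 h3 hP
  rw [h4]
  refine kls_of_kp hg hC ?_
  have hD : 0 ≤ 4 / C ^ 2 := by positivity
  have hCG : ∀ (κ' : Type) [Fintype κ'] (g : Pool.Agent.H776.Eu κ' → ℝ),
      Pool.Agent.H776.CG g → Pool.Agent.H776.Wt g →
        Pool.Agent.H776.KP (Pool.Agent.H776.nm g) (4 / C ^ 2) := by
    intro κ' _ g hcg hw
    obtain ⟨F, _, A, c, hc, hA, hge⟩ := hcg
    have e := Fintype.equivFin κ'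
    have hw' : Pool.Agent.H776.Wt fun y => g (Pool.Agent.H776.rx e.symm y) :=
      Pool.Agent.H776.wt_iso hw _
    have hcg' : Pool.Agent.H776.CG fun y => g (Pool.Agent.H776.rx e.symm y) := by
      refine ⟨F, inferInstance, A ∘ₗ (Pool.Agent.H776.rx e.symm).toLinearEquiv.toLinearMap, c, hc,
        hA.comp (Pool.Agent.H776.rx e.symm).injective, fun y => ?_⟩
      change g (Pool.Agent.H776.rx e.symm y) = _
      rw [hge]
      have : (∀ i, 0 ≤ Pool.Agent.H776.rx e.symm y i) ↔ ∀ i, 0 ≤ y i := by
        simp only [Pool.Agent.H776.rx_apply, Equiv.symm_symm]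
        exact ⟨fun h i => by simpa using h (e.symm i), fun h i => h _⟩
      simp only [this]
      rfl
    have hp := hw'.prob
    have h5 := kp_of_kls hC (H _ _ (positiveNormal_of_cg hcg' hw'))
    have h6 := h5.iso hw'.int_sq (Pool.Agent.H776.rx e.symm) hD
    rwa [Pool.Agent.H776.nm_iso] at h6
  refine Pool.Agent.H776.kp_all hD (fun J _ _ a b c0 C0 hc0 hlow => ?_) hg
  exact Pool.Agent.H776.kp_mx hD (fun κ' _ g hng hwg => Pool.Agent.H776.kp_ng hD hCG hng hwg)
    hc0 hlow

/-- convexity of the quadratic form -/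
theorem qf_convex {n : ℕ} {Q : Matrix (Fin n) (Fin n) ℝ} (hQ : Q.PosDef) (x y : Euc n) {t : ℝ}
    (ht : 0 ≤ t) (ht1 : t ≤ 1) :
    ∑ i, ∑ j, Q i j * ((1 - t) • x + t • y) i * ((1 - t) • x + t • y) j ≤
      (1 - t) * (∑ i, ∑ j, Q i j * x i * x j) + t * ∑ i, ∑ j, Q i j * y i * y j := by
  have h0 : 0 ≤ ∑ i, ∑ j, Q i j * (x i - y i) * (x j - y j) := by
    have h1 := hQ.posSemidef.dotProduct_mulVec_nonneg (fun i => x i - y i)
    have e : star (fun i => x i - y i) ⬝ᵥ Q.mulVec (fun i => x i - y i) =
        ∑ i, ∑ j, Q i j * (x i - y i) * (x j - y j) := by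
      simp only [dotProduct, Matrix.mulVec, star_trivial, Finset.mul_sum]
      exact Finset.sum_congr rfl fun i _ => Finset.sum_congr rfl fun j _ => by ring
    rwa [e] at h1
  have e1 : ∑ i, ∑ j, Q i j * ((1 - t) • x + t • y) i * ((1 - t) • x + t • y) j =
      (1 - t) * (∑ i, ∑ j, Q i j * x i * x j) + t * (∑ i, ∑ j, Q i j * y i * y j) -
        t * (1 - t) * ∑ i, ∑ j, Q i j * (x i - y i) * (x j - y j) := by
    simp only [Finset.mul_sum, ← Finset.sum_add_distrib, ← Finset.sum_sub_distrib]
    refine Finset.sum_congr rfl fun i _ => Finset.sum_congr rfl fun j _ => ?_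
    simp only [PiLp.add_apply, PiLp.smul_apply, smul_eq_mul]
    ring
  rw [e1]
  have := mul_nonneg (mul_nonneg ht (sub_nonneg.2 ht1)) h0
  linarith

theorem logConcave_of_positiveNormal {n : ℕ} {μ : Measure (Euc n)} (h : PositiveNormal μ) :
    LogConcave μ := by
  classical
  obtain ⟨hP, Q, c, hQ, hμ⟩ := h
  have hm : MeasurableSet {x : Euc n | ∀ i, 0 ≤ x i} := Pool.Agent.H776.orth_meas
  have hc : 0 ≤ c := by
    by_contra hc
    have h0 : μ = 0 := by
      rw [hμ]
      have : (fun x : Euc n => ENNReal.ofReal (c * Real.exp (-(1 / 2) *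
          ∑ i, ∑ j, Q i j * x i * x j))) = 0 := by
        funext x
        exact ENNReal.ofReal_of_nonpos (mul_nonpos_of_nonpos_of_nonneg (not_le.1 hc).le
          (Real.exp_pos _).le)
      rw [this, withDensity_zero]
    have h1 := hP.measure_univ
    rw [h0] at h1
    simp at h1
  refine ⟨hP, ({x : Euc n | ∀ i, 0 ≤ x i}).indicator fun x => c * Real.exp (-(1 / 2) *
    ∑ i, ∑ j, Q i j * x i * x j), fun x => indicator_nonneg (fun x _ => by positivity) x, ?_, ?_, ?_⟩
  · exact (by fun_prop : Measurable fun x : Euc n => c * Real.exp (-(1 / 2) *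
      ∑ i, ∑ j, Q i j * x i * x j)).indicator hm
  · intro x y t ht ht1
    by_cases hx : ∀ i, 0 ≤ x i
    · by_cases hy : ∀ i, 0 ≤ y i
      · have hxy : ∀ i, 0 ≤ ((1 - t) • x + t • y) i := fun i => by
          simp only [PiLp.add_apply, PiLp.smul_apply, smul_eq_mul]
          exact add_nonneg (mul_nonneg (by linarith) (hx i)) (mul_nonneg ht.le (hy i))
        rw [indicator_of_mem (show x ∈ {x : Euc n | ∀ i, 0 ≤ x i} from hx),
          indicator_of_mem (show y ∈ {x : Euc n | ∀ i, 0 ≤ x i} from hy),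
          indicator_of_mem (show (1 - t) • x + t • y ∈ {x : Euc n | ∀ i, 0 ≤ x i} from hxy)]
        rw [Real.mul_rpow hc (Real.exp_pos _).le, Real.mul_rpow hc (Real.exp_pos _).le]
        have e1 : c ^ (1 - t) * c ^ t = c := by
          rcases hc.eq_or_lt with h | h
          · rw [← h, Real.zero_rpow ht.ne', mul_zero]
          · rw [← Real.rpow_add h, sub_add_cancel, Real.rpow_one]
        have h1 := qf_convex hQ x y ht.le ht1.le
        calc _ = (c ^ (1 - t) * c ^ t) * (Real.exp (-(1 / 2) * ∑ i, ∑ j, Q i j * x i * x j) ^ (1 - t) *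
              Real.exp (-(1 / 2) * ∑ i, ∑ j, Q i j * y i * y j) ^ t) := by ring
          _ ≤ _ := by
            rw [e1, ← Real.exp_mul, ← Real.exp_mul, ← Real.exp_add]
            refine mul_le_mul_of_nonneg_left (Real.exp_le_exp.2 ?_) hc
            linarith
      · rw [indicator_of_notMem (show y ∉ {x : Euc n | ∀ i, 0 ≤ x i} from hy),
          Real.zero_rpow ht.ne', mul_zero]
        exact indicator_nonneg (fun x _ => by positivity) _
    · rw [indicator_of_notMem (show x ∉ {x : Euc n | ∀ i, 0 ≤ x i} from hx),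
        Real.zero_rpow (by linarith), zero_mul]
      exact indicator_nonneg (fun x _ => by positivity) _
  · rw [hμ, ← withDensity_indicator hm]
    congr 1
    funext x
    by_cases hx : x ∈ {x : Euc n | ∀ i, 0 ≤ x i}
    · rw [indicator_of_mem hx, indicator_of_mem hx]
    · rw [indicator_of_notMem hx, indicator_of_notMem hx, ENNReal.ofReal_zero]

/-- **The KLS conjecture is equivalent to its case of centred Gaussian measures conditioned to positive
orthants.** There is an absolute constant `c > 0` such that: if the inequality of Kannan, Lovasz and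
Simonovits holds with the constant `C` for all centred nondegenerate Gaussian measures conditioned to the
positive orthants of all `ℝᴺ`, then it holds with the constant `c C` for all log-concave probability
measures on all `ℝⁿ`. So the conjecture is equivalent to the conjecture for these measures, which are
log-concave. -/
theorem result :
    (∃ c : ℝ, 0 < c ∧ ∀ C : ℝ, 0 < C →
      (∀ (N : ℕ) (μ : Measure (Euc N)), PositiveNormal μ → KLS C μ) →
        ∀ (n : ℕ) (μ : Measure (Euc n)), LogConcave μ → KLS (c * C) μ) ∧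
    ((∃ C : ℝ, 0 < C ∧ ∀ (n : ℕ) (μ : Measure (Euc n)), LogConcave μ → KLS C μ) ↔
      ∃ C : ℝ, 0 < C ∧ ∀ (N : ℕ) (μ : Measure (Euc N)), PositiveNormal μ → KLS C μ) ∧
    ∀ (N : ℕ) (μ : Measure (Euc N)), PositiveNormal μ → LogConcave μ :=
  ⟨⟨1 / 28, by norm_num, fun _ hC H _ _ hμ => main hC H hμ⟩,
    ⟨fun ⟨C, hC, H⟩ => ⟨C, hC, fun N μ hμ => H N μ (logConcave_of_positiveNormal hμ)⟩,
      fun ⟨C, hC, H⟩ => ⟨1 / 28 * C, by positivity, fun _ _ hμ => main hC H hμ⟩⟩,
    fun _ _ h => logConcave_of_positiveNormal h⟩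

end Pool.Agent.Results.MP_6d896a_gt.CentredGaussiansOnOrthants
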